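import Mathlib

/-!
Arithmetic k-spheres: definitions.
-/

namespace Pool.Agent.H421Sph

open Finset

/-- The arithmetic k-sphere of radius r in dimension d. -/
def sphere (k d : ℕ) (r : ℝ) : Set (Fin d → ℤ) := {m | ∑ i, |(m i : ℝ)| ^ k = r ^ k}

/-- `r` is an admissible radius: `r > 0`, `r ^ k` is a natural number and the sphere is
nonempty. -/
def IsRadius (k d : ℕ) (r : ℝ) : Prop :=
  0 < r ∧ (∃ n : ℕ, r ^ k = n) ∧ (sphere k d r).Nonempty

/-- The asymptotic `N(r) ≍ r ^ (d - k)` holds in dimension `d`. -/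
def AsympHolds (k d : ℕ) : Prop :=
  ∃ c C r₀ : ℝ, 0 < c ∧ c ≤ C ∧ ∀ r : ℝ, IsRadius k d r → r₀ ≤ r →
    c * r ^ ((d : ℤ) - (k : ℤ)) ≤ ((sphere k d r).ncard : ℝ) ∧
      ((sphere k d r).ncard : ℝ) ≤ C * r ^ ((d : ℤ) - (k : ℤ))

lemma sphere_finite (k d : ℕ) (hk : 1 ≤ k) (r : ℝ) (hr : 0 ≤ r) : (sphere k d r).Finite := by
  have hsub : sphere k d r ⊆ Set.pi Set.univ (fun _ : Fin d => Set.Icc (-⌈r⌉) ⌈r⌉) := by
    intro m hm
    rw [Set.mem_univ_pi]
    intro i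
    have h1 : |(m i : ℝ)| ^ k ≤ r ^ k := by
      have hm' : ∑ i, |(m i : ℝ)| ^ k = r ^ k := hm
      rw [← hm']
      exact Finset.single_le_sum (f := fun i => |(m i : ℝ)| ^ k)
        (fun j _ => by positivity) (Finset.mem_univ i)
    have h2 : |(m i : ℝ)| ≤ r := le_of_pow_le_pow_left₀ (by omega) hr h1
    have h3 := abs_le.1 h2
    have h4 := Int.le_ceil r
    constructor
    · have : (-(⌈r⌉ : ℝ)) ≤ (m i : ℝ) := by linarith
      exact_mod_cast this
    · have : (m i : ℝ) ≤ (⌈r⌉ : ℝ) := by linarith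
      exact_mod_cast this
  exact (Set.Finite.pi (fun _ => Set.finite_Icc _ _)).subset hsub

end Pool.Agent.H421Sph
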