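import Mathlib
import Pool.Agent.H421Sph.Defs

/-!
If the asymptotic holds, the diagonal form is isotropic at every prime.
-/

namespace Pool.Agent.H421Sph

open Finset

lemma sphere_scale (k d p : ℕ) (hp : p.Prime)
    (hani : ∀ x : Fin d → ℕ, p ^ k ∣ ∑ i, x i ^ k → ∀ i, p ∣ x i)
    (hk : 1 ≤ k) (n : ℕ) (r : ℝ) (hr : 0 ≤ r) (hn : r ^ k = n) :
    (sphere k d (p * r)).ncard ≤ (sphere k d r).ncard := by
  have hfin := sphere_finite k d hk r hr
  have hsub : sphere k d (p * r) ⊆ (fun m : Fin d → ℤ => fun i => (p : ℤ) * m i) '' sphere k d r := by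
    intro m hm
    have hm' : ∑ i, |(m i : ℝ)| ^ k = (p * r) ^ k := hm
    have h1 : ((∑ i, (m i).natAbs ^ k : ℕ) : ℝ) = ((p ^ k * n : ℕ) : ℝ) := by
      push_cast
      rw [← hn, ← mul_pow, ← hm']
      apply Finset.sum_congr rfl
      intro i _
      rw [Nat.cast_natAbs, Int.cast_abs]
    have h2 : ∑ i, (m i).natAbs ^ k = p ^ k * n := by exact_mod_cast h1
    have h3 := hani (fun i => (m i).natAbs) (Dvd.intro _ h2.symm)
    have h4 : ∀ i, (p : ℤ) ∣ m i := fun i => Int.natCast_dvd.2 (h3 i)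
    choose m' hm'' using h4
    refine ⟨m', ?_, ?_⟩
    · show ∑ i, |(m' i : ℝ)| ^ k = r ^ k
      have hppos : (0 : ℝ) < p := by exact_mod_cast hp.pos
      have h5 : ∑ i, |(m i : ℝ)| ^ k = (p : ℝ) ^ k * ∑ i, |(m' i : ℝ)| ^ k := by
        rw [Finset.mul_sum]
        apply Finset.sum_congr rfl
        intro i _
        rw [hm'' i]
        push_cast
        rw [abs_mul, abs_of_pos hppos, mul_pow]
      rw [h5, mul_pow] at hm'
      exact mul_left_cancel₀ (by positivity) hm'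
    · funext i
      exact (hm'' i).symm
  calc (sphere k d (p * r)).ncard
      ≤ ((fun m : Fin d → ℤ => fun i => (p : ℤ) * m i) '' sphere k d r).ncard :=
        Set.ncard_le_ncard hsub (hfin.image _)
    _ ≤ (sphere k d r).ncard := Set.ncard_image_le hfin

lemma axis_mem (k d : ℕ) (hk : 1 ≤ k) (hd : 1 ≤ d) (t : ℕ) :
    (fun i : Fin d => if i = ⟨0, hd⟩ then (t : ℤ) else 0) ∈ sphere k d (t : ℝ) := by
  show ∑ i : Fin d, |((if i = ⟨0, hd⟩ then (t : ℤ) else 0 : ℤ) : ℝ)| ^ k = (t : ℝ) ^ k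
  rw [Finset.sum_eq_single (⟨0, hd⟩ : Fin d)]
  · simp
  · intro b _ hb
    simp [hb]
    omega
  · intro h; exact absurd (Finset.mem_univ _) h

theorem isotropic_of_asymp (k d : ℕ) (hk : 1 ≤ k) (hkd : k < d) (h : AsympHolds k d)
    (p : ℕ) (hp : p.Prime) :
    ∃ x : Fin d → ℕ, (∃ i, ¬ p ∣ x i) ∧ p ^ k ∣ ∑ i, x i ^ k := by
  by_contra hcon
  push Not at hcon
  have hani : ∀ x : Fin d → ℕ, p ^ k ∣ ∑ i, x i ^ k → ∀ i, p ∣ x i := by
    intro x hx i
    by_contra hi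
    exact hcon x ⟨i, hi⟩ hx
  obtain ⟨c, C, r₀, hc, hcC, H⟩ := h
  have hN : ∀ t : ℕ, (sphere k d ((p : ℝ) ^ t)).ncard ≤ (sphere k d (1 : ℝ)).ncard := by
    intro t
    induction t with
    | zero => simp
    | succ t ih =>
      have h1 := sphere_scale k d p hp hani hk ((p ^ t) ^ k) ((p : ℝ) ^ t) (by positivity)
        (by push_cast; rfl)
      rw [← pow_succ'] at h1
      exact h1.trans ih
  have hp1 : (1 : ℝ) < p := by exact_mod_cast hp.one_lt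
  set N1 : ℝ := ((sphere k d (1 : ℝ)).ncard : ℝ) with hN1
  obtain ⟨t, ht⟩ := pow_unbounded_of_one_lt (max r₀ (N1 / c)) hp1
  have htr : r₀ < (p : ℝ) ^ t := lt_of_le_of_lt (le_max_left _ _) ht
  have htN : N1 / c < (p : ℝ) ^ t := lt_of_le_of_lt (le_max_right _ _) ht
  have hrad : IsRadius k d ((p : ℝ) ^ t) := by
    refine ⟨by positivity, ⟨(p ^ t) ^ k, by push_cast; rfl⟩, ?_⟩
    have := axis_mem k d hk (by omega) (p ^ t)
    push_cast at this
    exact ⟨_, this⟩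
  have h1 := (H _ hrad htr.le).1
  have h2 : ((sphere k d ((p : ℝ) ^ t)).ncard : ℝ) ≤ N1 := Nat.cast_le.2 (hN t)
  have hge1 : (1 : ℝ) ≤ (p : ℝ) ^ t := one_le_pow₀ hp1.le
  have h3 : (p : ℝ) ^ t ≤ ((p : ℝ) ^ t) ^ ((d : ℤ) - (k : ℤ)) := by
    calc (p : ℝ) ^ t = ((p : ℝ) ^ t) ^ (1 : ℤ) := (zpow_one _).symm
      _ ≤ ((p : ℝ) ^ t) ^ ((d : ℤ) - (k : ℤ)) := zpow_le_zpow_right₀ hge1 (by omega)
  have h4 : N1 < c * (p : ℝ) ^ t := by
    rw [div_lt_iff₀ hc] at htN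
    linarith
  have h5 : c * (p : ℝ) ^ t ≤ c * ((p : ℝ) ^ t) ^ ((d : ℤ) - (k : ℤ)) :=
    mul_le_mul_of_nonneg_left h3 hc.le
  linarith

end Pool.Agent.H421Sph
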