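import Mathlib

/-!
Number of zeros of the diagonal form of degree k in d variables modulo M, multiplicativity,
and a divergent product over primes.
-/

namespace Pool.Agent.H421Sph

open Finset

/-- number of solutions of `x_1^k + ... + x_d^k = 0` in `ZMod M` -/
noncomputable def zc (k d M : ℕ) : ℕ := Nat.card {x : Fin d → ZMod M // ∑ i, x i ^ k = 0}

lemma zc_mul (k d m n : ℕ) [NeZero m] [NeZero n] (h : m.Coprime n) :
    zc k d (m * n) = zc k d m * zc k d n := by
  classical
  unfold zc
  rw [← Nat.card_prod]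
  let e := ZMod.chineseRemainder h
  refine Nat.card_congr ?_
  refine ⟨fun x => (⟨fun i => (e (x.1 i)).1, ?_⟩, ⟨fun i => (e (x.1 i)).2, ?_⟩),
    fun y => ⟨fun i => e.symm (y.1.1 i, y.2.1 i), ?_⟩, ?_, ?_⟩
  · have h1 := congrArg (fun t => (e t).1) x.2
    simpa [map_sum, map_pow, Prod.fst_sum] using h1
  · have h1 := congrArg (fun t => (e t).2) x.2
    simpa [map_sum, map_pow, Prod.snd_sum] using h1
  · apply e.injective
    rw [map_sum, map_zero]
    have h1 := y.1.2
    have h2 := y.2.2
    ext
    · simp [map_pow, Prod.fst_sum, h1]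
    · simp [map_pow, Prod.snd_sum, h2]
  · intro x
    ext i
    simp
  · intro y
    apply Prod.ext
    · ext i
      simp
    · ext i
      simp

/-- If all large primes have a bonus `c / p`, then the normalized number of zeros is unbounded. -/
theorem zc_unbounded (k d : ℕ) (c : ℝ) (hc : 0 < c) (p0 : ℕ)
    (hloc : ∀ p : ℕ, p.Prime → p0 ≤ p →
      ((p : ℝ) ^ k) ^ (d - 1) * (1 + c / p) ≤ zc k d (p ^ k)) (B : ℝ) :
    ∃ M : ℕ, 0 < M ∧ B * (M : ℝ) ^ (d - 1) < zc k d M := by
  classical
  -- finite sets of primes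
  have key : ∀ F : Finset ℕ, (∀ p ∈ F, p.Prime ∧ p0 ≤ p) →
      ((∏ p ∈ F, (p : ℝ) ^ k) ^ (d - 1)) * (∏ p ∈ F, (1 + c / (p : ℝ)))
        ≤ zc k d (∏ p ∈ F, p ^ k) := by
    intro F
    induction F using Finset.induction_on with
    | empty =>
      intro _
      have : 1 ≤ zc k d 1 := by
        unfold zc
        have : Nonempty {x : Fin d → ZMod 1 // ∑ i, x i ^ k = 0} :=
          ⟨⟨fun _ => 0, Subsingleton.elim _ _⟩⟩
        exact Nat.card_pos
      simpa using this
    | insert q F hq ih =>
      intro hF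
      have hqp := hF q (Finset.mem_insert_self _ _)
      have ih' := ih (fun p hp => hF p (Finset.mem_insert_of_mem hp))
      rw [Finset.prod_insert hq, Finset.prod_insert hq, Finset.prod_insert hq]
      have hcop : (q ^ k).Coprime (∏ p ∈ F, p ^ k) := by
        apply Nat.Coprime.prod_right
        intro p hp
        apply Nat.Coprime.pow
        exact (Nat.coprime_primes hqp.1 (hF p (Finset.mem_insert_of_mem hp)).1).2
          (fun h => hq (h ▸ hp))
      have n1 : NeZero (q ^ k) := ⟨pow_ne_zero _ hqp.1.ne_zero⟩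
      have n2 : NeZero (∏ p ∈ F, p ^ k) := ⟨Finset.prod_ne_zero_iff.2
        (fun p hp => pow_ne_zero _ (hF p (Finset.mem_insert_of_mem hp)).1.ne_zero)⟩
      rw [zc_mul k d _ _ hcop]
      push_cast
      have hl := hloc q hqp.1 hqp.2
      calc ((q : ℝ) ^ k * ∏ p ∈ F, (p : ℝ) ^ k) ^ (d - 1) *
            ((1 + c / (q : ℝ)) * ∏ p ∈ F, (1 + c / (p : ℝ)))
          = (((q : ℝ) ^ k) ^ (d - 1) * (1 + c / q)) *
            (((∏ p ∈ F, (p : ℝ) ^ k) ^ (d - 1)) * ∏ p ∈ F, (1 + c / (p : ℝ))) := by
            rw [mul_pow]; ring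
        _ ≤ (zc k d (q ^ k) : ℝ) * (zc k d (∏ p ∈ F, p ^ k) : ℝ) := by
            apply mul_le_mul hl ih'
            · positivity
            · positivity
  -- divergence
  have hdiv : ∃ F : Finset ℕ, (∀ p ∈ F, p.Prime ∧ p0 ≤ p) ∧ B < ∑ p ∈ F, c / (p : ℝ) := by
    by_contra hcon
    push Not at hcon
    apply not_summable_one_div_on_primes
    have hs : Summable (fun n : ℕ => Set.indicator {p : ℕ | p.Prime ∧ p0 ≤ p}
        (fun n : ℕ => c / (n : ℝ)) n) := by
      apply summable_of_sum_le (c := B)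
      · intro n
        apply Set.indicator_nonneg
        intro n _
        positivity
      · intro u
        have := hcon (u.filter (fun p => p.Prime ∧ p0 ≤ p)) (by
          intro p hp
          exact (Finset.mem_filter.1 hp).2)
        rw [Finset.sum_filter] at this
        refine le_trans (le_of_eq (Finset.sum_congr rfl ?_)) this
        intro n _
        rw [Set.indicator_apply]
        rfl
    have hs2 : Summable (fun n : ℕ => (1 / c) * Set.indicator {p : ℕ | p.Prime ∧ p0 ≤ p}
        (fun n : ℕ => c / (n : ℝ)) n) := hs.mul_left _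
    rw [← summable_nat_add_iff p0] at hs2 ⊢
    refine hs2.congr ?_
    intro n
    simp only [Set.indicator_apply, Set.mem_ofPred_eq]
    by_cases hp : (n + p0).Prime
    · simp only [hp, le_add_iff_nonneg_left, zero_le, and_self, if_true]
      field_simp
    · simp [hp]
  obtain ⟨F, hF, hB⟩ := hdiv
  refine ⟨∏ p ∈ F, p ^ k, ?_, ?_⟩
  · apply Finset.prod_pos
    intro p hp
    exact pow_pos (hF p hp).1.pos _
  · have h1 := key F hF
    have h2 : B < ∏ p ∈ F, (1 + c / (p : ℝ)) := by
      have h3 : 1 + ∑ p ∈ F, c / (p : ℝ) ≤ ∏ p ∈ F, (1 + c / (p : ℝ)) := by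
        clear h1 hB
        induction F using Finset.induction_on with
        | empty => simp
        | insert q F hq ih =>
          have ih' := ih (fun p hp => hF p (Finset.mem_insert_of_mem hp))
          rw [Finset.sum_insert hq, Finset.prod_insert hq]
          have e1 : (0 : ℝ) ≤ c / q := by positivity
          have e2 : (0 : ℝ) ≤ ∑ p ∈ F, c / (p : ℝ) := Finset.sum_nonneg (fun p _ => by positivity)
          nlinarith [mul_le_mul_of_nonneg_left ih' e1, mul_nonneg e1 e2]
      linarith
    push_cast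
    have hpos : (0 : ℝ) < (∏ p ∈ F, (p : ℝ) ^ k) ^ (d - 1) := by
      apply pow_pos
      apply Finset.prod_pos
      intro p hp
      have : (0 : ℝ) < p := by exact_mod_cast (hF p hp).1.pos
      positivity
    have h4 : B * (∏ p ∈ F, (p : ℝ) ^ k) ^ (d - 1) <
        (∏ p ∈ F, (1 + c / (p : ℝ))) * (∏ p ∈ F, (p : ℝ) ^ k) ^ (d - 1) :=
      mul_lt_mul_of_pos_right h2 hpos
    linarith

end Pool.Agent.H421Sph
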