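import Mathlib
import Pool.Agent.H421Sph.Mult

/-!
Fibres of reduction modulo p and the case k = 3.
-/

namespace Pool.Agent.H421Sph

open Finset

/-- reduction modulo `p` -/
noncomputable abbrev red (p k : ℕ) (hk : k ≠ 0) : ZMod (p ^ k) →+* ZMod p :=
  ZMod.castHom (dvd_pow_self p hk) (ZMod p)

lemma red_surj (p k : ℕ) (hk : k ≠ 0) : Function.Surjective (red p k hk) :=
  ZMod.castHom_surjective _

lemma fiber_card (p k : ℕ) (hp : p.Prime) (hk : k ≠ 0) (y : ZMod p) :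
    Nat.card {x : ZMod (p ^ k) // red p k hk x = y} = p ^ (k - 1) := by
  classical
  have : NeZero p := ⟨hp.ne_zero⟩
  have : NeZero (p ^ k) := ⟨pow_ne_zero _ hp.ne_zero⟩
  have hall : ∀ z : ZMod p, (univ.filter (fun x : ZMod (p ^ k) => red p k hk x = z)).card
      = (univ.filter (fun x : ZMod (p ^ k) => red p k hk x = y)).card := by
    intro z
    exact AddMonoidHom.card_fiber_eq_of_mem_range (red p k hk).toAddMonoidHom
      (red_surj p k hk z) (red_surj p k hk y)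
  have htot : (univ : Finset (ZMod (p ^ k))).card =
      ∑ z : ZMod p, (univ.filter (fun x : ZMod (p ^ k) => red p k hk x = z)).card :=
    Finset.card_eq_sum_card_fiberwise (fun x _ => Finset.mem_coe.2 (Finset.mem_univ _))
  rw [Finset.card_univ, ZMod.card, Finset.sum_congr rfl (fun z _ => hall z)] at htot
  rw [Finset.sum_const, Finset.card_univ, ZMod.card, smul_eq_mul] at htot
  rw [Nat.card_eq_fintype_card, Fintype.card_subtype]
  have h1 : p ^ k = p * p ^ (k - 1) := by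
    rw [← pow_succ']
    congr 1
    omega
  exact (Nat.eq_of_mul_eq_mul_left hp.pos (h1.symm.trans htot)).symm

lemma pow_eq_zero_of_red (p k : ℕ) (hp : p.Prime) (hk : k ≠ 0) (x : ZMod (p ^ k))
    (hx : red p k hk x = 0) : x ^ k = 0 := by
  have : NeZero p := ⟨hp.ne_zero⟩
  have : NeZero (p ^ k) := ⟨pow_ne_zero _ hp.ne_zero⟩
  have h1 : ((x.val : ℕ) : ZMod p) = 0 := by
    rw [← hx]
    simp [red]
  rw [ZMod.natCast_eq_zero_iff] at h1
  have h2 : ((x.val ^ k : ℕ) : ZMod (p ^ k)) = 0 := by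
    rw [ZMod.natCast_eq_zero_iff]
    exact pow_dvd_pow_of_dvd h1 k
  push_cast at h2
  simpa using h2

/-- the case k = 3 -/
theorem local3 (p : ℕ) (hp : p.Prime) :
    ((p : ℝ) ^ 3) ^ 3 * (1 + (1 / 4) / p) ≤ zc 3 4 (p ^ 3) := by
  classical
  have : NeZero p := ⟨hp.ne_zero⟩
  have : NeZero (p ^ 3) := ⟨pow_ne_zero _ hp.ne_zero⟩
  set R := ZMod (p ^ 3) with hR
  let f : R × R → R := fun z => z.1 ^ 3 + z.2 ^ 3
  let r : R → ℕ := fun v => (univ.filter (fun z : R × R => f z = v)).card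
  -- the sum of r
  have hsum : ∑ v, r v = p ^ 6 := by
    have h1 : (univ : Finset (R × R)).card = ∑ v : R, r v :=
      Finset.card_eq_sum_card_fiberwise (fun x _ => Finset.mem_coe.2 (Finset.mem_univ _))
    rw [← h1, Finset.card_univ, Fintype.card_prod, ZMod.card]
    ring
  have hr0 : p ^ 4 ≤ r 0 := by
    have h3 : Nat.card ({x : ZMod (p ^ 3) // red p 3 (by norm_num) x = 0} ×
        {x : ZMod (p ^ 3) // red p 3 (by norm_num) x = 0}) = p ^ 4 := by
      rw [Nat.card_prod, fiber_card p 3 hp (by norm_num)]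
      ring
    have h4 : r 0 = Nat.card {z : R × R // f z = 0} := by
      rw [Nat.card_eq_fintype_card, Fintype.card_subtype]
    rw [h4, ← h3]
    refine Nat.card_le_card_of_injective (fun z => ⟨(z.1.1, z.2.1), ?_⟩) ?_
    · show z.1.1 ^ 3 + z.2.1 ^ 3 = 0
      rw [pow_eq_zero_of_red p 3 hp _ _ z.1.2, pow_eq_zero_of_red p 3 hp _ _ z.2.2, add_zero]
    · intro x y hxy
      have h5 := congrArg Subtype.val hxy
      have h6 := congrArg Prod.fst h5
      have h7 := congrArg Prod.snd h5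
      exact Prod.ext (Subtype.ext h6) (Subtype.ext h7)
  -- pairs
  have hpairs : (univ.filter (fun w : (R × R) × (R × R) => f w.1 = f w.2)).card
      = ∑ v, r v * r v := by
    rw [Finset.card_eq_sum_card_fiberwise (f := fun w : (R × R) × (R × R) => f w.1)
      (t := (univ : Finset R)) (fun x _ => Finset.mem_coe.2 (Finset.mem_univ _))]
    apply Finset.sum_congr rfl
    intro v _
    rw [← Finset.card_product]
    congr 1
    ext w
    simp only [Finset.mem_filter, Finset.mem_univ, true_and, Finset.mem_product]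
    constructor
    · rintro ⟨h1, h2⟩
      exact ⟨h2, h1 ▸ h2⟩
    · rintro ⟨h1, h2⟩
      exact ⟨h1.trans h2.symm, h1⟩
  have hzc : (univ.filter (fun w : (R × R) × (R × R) => f w.1 = f w.2)).card ≤
      zc 3 4 (p ^ 3) := by
    unfold zc
    rw [← Fintype.card_subtype, ← Nat.card_eq_fintype_card]
    refine Nat.card_le_card_of_injective
      (fun w => ⟨![w.1.1.1, w.1.1.2, -w.1.2.1, -w.1.2.2], ?_⟩) ?_
    · have h1 : w.1.1.1 ^ 3 + w.1.1.2 ^ 3 = w.1.2.1 ^ 3 + w.1.2.2 ^ 3 := w.2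
      simp only [Fin.sum_univ_four, Matrix.cons_val_zero, Matrix.cons_val_one,
        Matrix.cons_val_two, Matrix.cons_val_three, Matrix.head_cons, Matrix.tail_cons,
        Matrix.cons_val]
      linear_combination h1
    · intro x y hxy
      have h5 := congrArg Subtype.val hxy
      have e0 := congrFun h5 0
      have e1 := congrFun h5 1
      have e2 := congrFun h5 2
      have e3 := congrFun h5 3
      simp at e0 e1 e2 e3
      apply Subtype.ext
      exact Prod.ext (Prod.ext e0 e1) (Prod.ext e2 e3)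
  -- real inequality
  have hp2 : (2 : ℝ) ≤ p := by exact_mod_cast hp.two_le
  have hvar : ∑ v : R, ((r v : ℝ) - (p : ℝ) ^ 3) ^ 2
      = (∑ v : R, (r v : ℝ) * r v) - (p : ℝ) ^ 9 := by
    have h1 : ∀ v : R, ((r v : ℝ) - (p : ℝ) ^ 3) ^ 2
        = (r v : ℝ) * r v - 2 * (p : ℝ) ^ 3 * r v + (p : ℝ) ^ 6 := by
      intro v; ring
    simp only [h1, Finset.sum_add_distrib, Finset.sum_sub_distrib, ← Finset.mul_sum]
    have h2 : ∑ v : R, (r v : ℝ) = (p : ℝ) ^ 6 := by exact_mod_cast hsum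
    rw [h2]
    have h3 : ∑ _v : R, (p : ℝ) ^ 6 = (p : ℝ) ^ 3 * (p : ℝ) ^ 6 := by
      rw [Finset.sum_const, Finset.card_univ, ZMod.card, nsmul_eq_mul]
      push_cast
      ring
    rw [h3]
    ring
  have hge : ((r 0 : ℝ) - (p : ℝ) ^ 3) ^ 2 ≤ ∑ v : R, ((r v : ℝ) - (p : ℝ) ^ 3) ^ 2 :=
    Finset.single_le_sum (f := fun v : R => ((r v : ℝ) - (p : ℝ) ^ 3) ^ 2)
      (fun v _ => sq_nonneg _) (Finset.mem_univ 0)
  have hr0' : (p : ℝ) ^ 4 ≤ (r 0 : ℝ) := by exact_mod_cast hr0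
  have hz : (∑ v : R, (r v : ℝ) * r v) ≤ (zc 3 4 (p ^ 3) : ℝ) := by
    have := hpairs ▸ hzc
    exact_mod_cast this
  have hp3 : (0 : ℝ) ≤ (p : ℝ) ^ 4 - (p : ℝ) ^ 3 := by
    have : (p : ℝ) ^ 4 - (p : ℝ) ^ 3 = (p : ℝ) ^ 3 * (p - 1) := by ring
    rw [this]
    apply mul_nonneg (by positivity)
    linarith
  have hsq : ((p : ℝ) ^ 4 - (p : ℝ) ^ 3) ^ 2 ≤ ((r 0 : ℝ) - (p : ℝ) ^ 3) ^ 2 :=
    pow_le_pow_left₀ hp3 (by linarith) 2
  have hfin : ((p : ℝ) ^ 3) ^ 3 * (1 + (1 / 4) / p) ≤ (p : ℝ) ^ 9 +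
      ((p : ℝ) ^ 4 - (p : ℝ) ^ 3) ^ 2 := by
    have h1 : ((p : ℝ) ^ 3) ^ 3 * (1 + (1 / 4) / p) = (p : ℝ) ^ 9 + (p : ℝ) ^ 8 / 4 := by
      have : (p : ℝ) ≠ 0 := by positivity
      field_simp
    rw [h1]
    have h2 : ((p : ℝ) ^ 4 - (p : ℝ) ^ 3) ^ 2 = (p : ℝ) ^ 6 * (p - 1) ^ 2 := by ring
    have h3 : (p : ℝ) ^ 8 / 4 = (p : ℝ) ^ 6 * (p / 2) ^ 2 := by ring
    rw [h2, h3]
    have h4 : ((p : ℝ) / 2) ^ 2 ≤ ((p : ℝ) - 1) ^ 2 := pow_le_pow_left₀ (by linarith) (by linarith) 2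
    have h5 : (0 : ℝ) ≤ (p : ℝ) ^ 6 := by positivity
    nlinarith
  linarith

end Pool.Agent.H421Sph
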