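import Mathlib

/-!
Lower bound for the number of zeros of a diagonal form over a prime field.
-/

namespace Pool.Agent.H421Sph

open Finset

section
variable (p k : ℕ) [Fact p.Prime]

/-- the exponential sum -/
noncomputable def S (a : ZMod p) : ℂ := ∑ x : ZMod p, ZMod.stdAddChar (a * x ^ k)

lemma psi_prim : (ZMod.stdAddChar (N := p)).IsPrimitive := ZMod.isPrimitive_stdAddChar p

lemma psi_sum {ι : Type*} [Fintype ι] (f : ι → ZMod p) :
    ZMod.stdAddChar (∑ i, f i) = ∏ i, ZMod.stdAddChar (N := p) (f i) := by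
  classical
  have : ∀ s : Finset ι, ZMod.stdAddChar (∑ i ∈ s, f i)
      = ∏ i ∈ s, ZMod.stdAddChar (N := p) (f i) := by
    intro s
    induction s using Finset.induction_on with
    | empty => simp
    | insert a s ha ih =>
      rw [Finset.sum_insert ha, Finset.prod_insert ha, AddChar.map_add_eq_mul, ih]
  exact this univ

lemma roots_card (hk : 0 < k) (c : ZMod p) :
    (univ.filter (fun x : ZMod p => x ^ k = c)).card ≤ k := by
  classical
  calc (univ.filter (fun x : ZMod p => x ^ k = c)).card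
      ≤ (Polynomial.nthRoots k c).toFinset.card := by
        apply Finset.card_le_card
        intro x hx
        rw [Multiset.mem_toFinset, Polynomial.mem_nthRoots hk]
        exact (Finset.mem_filter.1 hx).2
    _ ≤ Multiset.card (Polynomial.nthRoots k c) := Multiset.toFinset_card_le _
    _ ≤ k := Polynomial.card_nthRoots k c

lemma sum_S_pow (d : ℕ) :
    ∑ a : ZMod p, S p k a ^ d =
      (p : ℂ) * ((univ.filter (fun y : Fin d → ZMod p => ∑ i, y i ^ k = 0)).card : ℂ) := by
  classical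
  have h1 : ∀ a : ZMod p, S p k a ^ d =
      ∑ y : Fin d → ZMod p, ZMod.stdAddChar (a * ∑ i, y i ^ k) := by
    intro a
    unfold S
    rw [Fintype.sum_pow]
    apply Finset.sum_congr rfl
    intro y _
    rw [Finset.mul_sum]
    exact (psi_sum p (fun i => a * y i ^ k)).symm
  simp_rw [h1]
  rw [Finset.sum_comm]
  have h2 : ∀ y : Fin d → ZMod p, ∑ a : ZMod p, ZMod.stdAddChar (a * ∑ i, y i ^ k)
      = if (∑ i, y i ^ k) = 0 then (p : ℂ) else 0 := by
    intro y
    rw [AddChar.sum_mulShift _ (psi_prim p)]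
    simp [ZMod.card]
  simp_rw [h2]
  rw [← Finset.sum_filter, Finset.sum_const, nsmul_eq_mul]
  ring

lemma sum_S_sq (hk : 0 < k) :
    ∑ a : ZMod p, ‖S p k a‖ ^ 2 ≤ (k : ℝ) * (p : ℝ) ^ 2 := by
  classical
  have hE : ∑ a : ZMod p, ((‖S p k a‖ ^ 2 : ℝ) : ℂ) =
      (p : ℂ) * ((univ.filter (fun z : ZMod p × ZMod p => z.1 ^ k = z.2 ^ k)).card : ℂ) := by
    have h1 : ∀ a : ZMod p, ((‖S p k a‖ ^ 2 : ℝ) : ℂ) =
        ∑ z : ZMod p × ZMod p, ZMod.stdAddChar (a * (z.1 ^ k - z.2 ^ k)) := by
      intro a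
      push_cast
      rw [← Complex.mul_conj']
      unfold S
      rw [map_sum, Finset.sum_mul_sum, Fintype.sum_prod_type]
      apply Finset.sum_congr rfl
      intro x _
      apply Finset.sum_congr rfl
      intro y _
      rw [← AddChar.map_neg_eq_conj, ← AddChar.map_add_eq_mul]
      congr 1
      ring
    simp_rw [h1]
    rw [Finset.sum_comm]
    have h2 : ∀ z : ZMod p × ZMod p, ∑ a : ZMod p, ZMod.stdAddChar (a * (z.1 ^ k - z.2 ^ k))
        = if z.1 ^ k = z.2 ^ k then (p : ℂ) else 0 := by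
      intro y
      rw [AddChar.sum_mulShift _ (psi_prim p)]
      simp [ZMod.card, sub_eq_zero]
    simp_rw [h2]
    rw [← Finset.sum_filter, Finset.sum_const, nsmul_eq_mul]
    ring
  have hE2 : ∑ a : ZMod p, ‖S p k a‖ ^ 2 =
      (p : ℝ) * ((univ.filter (fun z : ZMod p × ZMod p => z.1 ^ k = z.2 ^ k)).card : ℝ) := by
    exact_mod_cast hE
  have hcard : (univ.filter (fun z : ZMod p × ZMod p => z.1 ^ k = z.2 ^ k)).card ≤ k * p := by
    rw [Finset.card_eq_sum_card_fiberwise (f := fun z : ZMod p × ZMod p => z.2)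
      (t := (univ : Finset (ZMod p))) (fun x _ => Finset.mem_coe.2 (Finset.mem_univ _))]
    calc ∑ b : ZMod p, (((univ.filter (fun z : ZMod p × ZMod p => z.1 ^ k = z.2 ^ k))).filter
          (fun z => z.2 = b)).card
        ≤ ∑ _b : ZMod p, k := by
          apply Finset.sum_le_sum
          intro b _
          refine le_trans ?_ (roots_card p k hk (b ^ k))
          refine Finset.card_le_card_of_injOn (fun z => z.1) ?_ ?_
          · intro z hz
            have hz' := Finset.mem_filter.1 (Finset.mem_coe.1 hz)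
            have h3 := (Finset.mem_filter.1 hz'.1).2
            apply Finset.mem_coe.2
            rw [Finset.mem_filter]
            exact ⟨Finset.mem_univ _, by rw [h3, hz'.2]⟩
          · intro z hz w hw hzw
            have hz' := (Finset.mem_filter.1 (Finset.mem_coe.1 hz)).2
            have hw' := (Finset.mem_filter.1 (Finset.mem_coe.1 hw)).2
            exact Prod.ext hzw (hz'.trans hw'.symm)
      _ = k * p := by simp [ZMod.card]; ring
  rw [hE2]
  have hc : (((univ.filter (fun z : ZMod p × ZMod p => z.1 ^ k = z.2 ^ k)).card : ℕ) : ℝ)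
      ≤ (k : ℝ) * p := by exact_mod_cast hcard
  have hp0 : (0 : ℝ) ≤ p := by positivity
  nlinarith

lemma S_scale (a c : ZMod p) (hc : c ≠ 0) : S p k (a * c ^ k) = S p k a := by
  unfold S
  refine Fintype.sum_equiv (Equiv.mulLeft₀ c hc) _ _ ?_
  intro x
  congr 1
  simp only [Equiv.mulLeft₀_apply]
  ring

lemma S_bound (hk : 0 < k) (a : ZMod p) (ha : a ≠ 0) :
    ‖S p k a‖ ^ 2 ≤ 2 * (k : ℝ) ^ 2 * p := by
  classical
  have hp : p.Prime := Fact.out
  have h1 : ((p : ℝ) - 1) * ‖S p k a‖ ^ 2 ≤ (k : ℝ) * ((k : ℝ) * (p : ℝ) ^ 2) := by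
    have h2 : ∑ c ∈ (univ.filter (fun c : ZMod p => c ≠ 0)), ‖S p k (a * c ^ k)‖ ^ 2
        = ((p : ℝ) - 1) * ‖S p k a‖ ^ 2 := by
      rw [Finset.sum_congr rfl (fun c hc => by
        rw [S_scale p k a c (Finset.mem_filter.1 hc).2])]
      rw [Finset.sum_const, nsmul_eq_mul]
      congr 1
      rw [Finset.filter_ne', Finset.card_erase_of_mem (Finset.mem_univ _), Finset.card_univ,
        ZMod.card, Nat.cast_sub hp.one_lt.le]
      simp
    rw [← h2]
    calc ∑ c ∈ (univ.filter (fun c : ZMod p => c ≠ 0)), ‖S p k (a * c ^ k)‖ ^ 2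
        ≤ ∑ c : ZMod p, ‖S p k (a * c ^ k)‖ ^ 2 :=
          Finset.sum_le_sum_of_subset_of_nonneg (Finset.filter_subset _ _)
            (fun _ _ _ => by positivity)
      _ = ∑ b : ZMod p, ∑ c ∈ univ.filter (fun c : ZMod p => a * c ^ k = b),
            ‖S p k (a * c ^ k)‖ ^ 2 := (Finset.sum_fiberwise _ _ _).symm
      _ ≤ ∑ b : ZMod p, (k : ℝ) * ‖S p k b‖ ^ 2 := by
          apply Finset.sum_le_sum
          intro b _
          rw [Finset.sum_congr rfl (fun c hc => by rw [(Finset.mem_filter.1 hc).2])]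
          rw [Finset.sum_const, nsmul_eq_mul]
          apply mul_le_mul_of_nonneg_right _ (by positivity)
          have h3 : (univ.filter (fun c : ZMod p => a * c ^ k = b)).card ≤ k := by
            refine le_trans (Finset.card_le_card ?_) (roots_card p k hk (a⁻¹ * b))
            intro c hc
            rw [Finset.mem_filter] at hc ⊢
            refine ⟨Finset.mem_univ _, ?_⟩
            rw [← hc.2, ← mul_assoc, inv_mul_cancel₀ ha, one_mul]
          exact_mod_cast h3
      _ = (k : ℝ) * ∑ b : ZMod p, ‖S p k b‖ ^ 2 := by rw [Finset.mul_sum]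
      _ ≤ (k : ℝ) * ((k : ℝ) * (p : ℝ) ^ 2) :=
          mul_le_mul_of_nonneg_left (sum_S_sq p k hk) (by positivity)
  have hp2 : (2 : ℝ) ≤ p := by exact_mod_cast hp.two_le
  have h4 : (p : ℝ) / 2 * ‖S p k a‖ ^ 2 ≤ ((p : ℝ) - 1) * ‖S p k a‖ ^ 2 := by
    apply mul_le_mul_of_nonneg_right _ (by positivity)
    linarith
  have h5 : (p : ℝ) / 2 * ‖S p k a‖ ^ 2 ≤ (p : ℝ) / 2 * (2 * (k : ℝ) ^ 2 * p) := by
    nlinarith
  exact le_of_mul_le_mul_left h5 (by positivity)

/-- lower bound for the number of zeros -/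
theorem zeros_lower (d : ℕ) (hk : 0 < k) (hd : 1 ≤ d) :
    (p : ℝ) ^ (d - 1) - (Real.sqrt (2 * (k : ℝ) ^ 2 * p)) ^ d ≤
      ((univ.filter (fun y : Fin d → ZMod p => ∑ i, y i ^ k = 0)).card : ℝ) := by
  classical
  have hp : p.Prime := Fact.out
  set Z : ℝ := ((univ.filter (fun y : Fin d → ZMod p => ∑ i, y i ^ k = 0)).card : ℝ) with hZ
  set T : ℝ := Real.sqrt (2 * (k : ℝ) ^ 2 * p) with hT
  have hT0 : 0 ≤ T := Real.sqrt_nonneg _
  have h0 : S p k 0 = p := by
    unfold S
    simp [ZMod.card]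
  have h1 := sum_S_pow p k d
  rw [← Finset.add_sum_erase univ (fun a : ZMod p => S p k a ^ d) (Finset.mem_univ 0)] at h1
  have hb : ‖∑ a ∈ univ.erase (0 : ZMod p), S p k a ^ d‖ ≤ (p : ℝ) * T ^ d := by
    calc ‖∑ a ∈ univ.erase (0 : ZMod p), S p k a ^ d‖
        ≤ ∑ a ∈ univ.erase (0 : ZMod p), ‖S p k a ^ d‖ := norm_sum_le _ _
      _ ≤ ∑ _a ∈ univ.erase (0 : ZMod p), T ^ d := by
          apply Finset.sum_le_sum
          intro a ha
          rw [norm_pow]
          apply pow_le_pow_left₀ (norm_nonneg _)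
          rw [hT]
          apply Real.le_sqrt_of_sq_le
          exact S_bound p k hk a (Finset.ne_of_mem_erase ha)
      _ ≤ (p : ℝ) * T ^ d := by
          rw [Finset.sum_const, nsmul_eq_mul]
          apply mul_le_mul_of_nonneg_right _ (by positivity)
          have : (univ.erase (0 : ZMod p)).card ≤ p := by
            calc _ ≤ (univ : Finset (ZMod p)).card := Finset.card_le_card (Finset.erase_subset _ _)
              _ = p := by simp [ZMod.card]
          exact_mod_cast this
  have h2 : (∑ a ∈ univ.erase (0 : ZMod p), S p k a ^ d) = ((p * Z - (p : ℝ) ^ d : ℝ) : ℂ) := by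
    rw [h0] at h1
    push_cast
    rw [hZ]
    push_cast
    linear_combination h1
  rw [h2, Complex.norm_real, Real.norm_eq_abs] at hb
  have h3 := (abs_le.1 hb).1
  have hppos : (0 : ℝ) < p := by exact_mod_cast hp.pos
  have h4 : (p : ℝ) ^ d = p * (p : ℝ) ^ (d - 1) := by
    rw [← pow_succ']
    congr 1
    omega
  rw [h4] at h3
  have h5 : (p : ℝ) * ((p : ℝ) ^ (d - 1) - T ^ d) ≤ p * Z := by linarith
  exact le_of_mul_le_mul_left h5 hppos

end

end Pool.Agent.H421Sph
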