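import Mathlib
import Pool.Agent.H421Sph.Defs
import Pool.Agent.H421Sph.Mult

/-!
From the asymptotic in dimension at most `k + 1` to a bound for the number of zeros modulo `M`.
-/

namespace Pool.Agent.H421Sph

open Finset

/-- number of points in the box `[0,M)^d` with prescribed sum of k-th powers -/
noncomputable def cnt (k d M n : ℕ) : ℕ :=
  Nat.card {x : Fin d → ZMod M // ∑ i, (x i).val ^ k = n}

lemma cnt_le_sphere (k d M n : ℕ) (hM : 0 < M) (hk : 1 ≤ k) (r : ℝ) (hr : 0 ≤ r)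
    (hn : r ^ k = n) : cnt k d M n ≤ (sphere k d r).ncard := by
  have : NeZero M := ⟨hM.ne'⟩
  have hfin := sphere_finite k d hk r hr
  have := hfin.to_subtype
  unfold cnt
  rw [← Nat.card_coe_set_eq]
  refine Nat.card_le_card_of_injective
    (fun x => (⟨fun i => ((x.1 i).val : ℤ), ?_⟩ : sphere k d r)) ?_
  · show ∑ i, |(((x.1 i).val : ℤ) : ℝ)| ^ k = r ^ k
    rw [hn]
    have := x.2
    have h2 : ((∑ i, (x.1 i).val ^ k : ℕ) : ℝ) = (n : ℝ) := by exact_mod_cast this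
    push_cast at h2
    rw [← h2]
    apply Finset.sum_congr rfl
    intro i _
    have : (0 : ℝ) ≤ ((((x.1 i).val : ℕ) : ℤ) : ℝ) := by positivity
    rw [abs_of_nonneg this]
    push_cast
    rfl
  · intro x y hxy
    have h1 : (fun i => ((x.1 i).val : ℤ)) = (fun i => ((y.1 i).val : ℤ)) :=
      congrArg Subtype.val hxy
    apply Subtype.ext
    funext i
    have h2 := congrFun h1 i
    have h3 : (x.1 i).val = (y.1 i).val := by exact_mod_cast h2
    exact ZMod.val_injective M h3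

lemma cnt_small (k d M n : ℕ) (hM : 0 < M) (hk : 1 ≤ k) (r : ℝ) (hr : 0 ≤ r)
    (hn : r ^ k = n) (L : ℕ) (hL : r < L) : cnt k d M n ≤ L ^ d := by
  have : NeZero M := ⟨hM.ne'⟩
  unfold cnt
  have hcard : Nat.card (Fin d → Fin L) = L ^ d := by
    simp [Nat.card_eq_fintype_card]
  rw [← hcard]
  have hlt : ∀ x : {x : Fin d → ZMod M // ∑ i, (x i).val ^ k = n}, ∀ i, (x.1 i).val < L := by
    intro x i
    have h1 : (x.1 i).val ^ k ≤ n :=
      le_trans (Finset.single_le_sum (f := fun i => (x.1 i).val ^ k)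
        (fun j _ => Nat.zero_le _) (Finset.mem_univ i)) (le_of_eq x.2)
    have h2 : (((x.1 i).val : ℝ)) ^ k ≤ r ^ k := by
      rw [hn]
      exact_mod_cast h1
    have h3 : ((x.1 i).val : ℝ) ≤ r := le_of_pow_le_pow_left₀ (by omega) hr h2
    have h4 : ((x.1 i).val : ℝ) < L := lt_of_le_of_lt h3 hL
    exact_mod_cast h4
  refine Nat.card_le_card_of_injective (fun x i => (⟨(x.1 i).val, hlt x i⟩ : Fin L)) ?_
  intro x y hxy
  apply Subtype.ext
  funext i
  have h2 := congrFun hxy i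
  have h3 : (x.1 i).val = (y.1 i).val := by simpa using h2
  exact ZMod.val_injective M h3

lemma sum_le (k d M n : ℕ) (hM : 0 < M) (x : Fin d → ZMod M)
    (hx : ∑ i, (x i).val ^ k = n) : n ≤ d * M ^ k := by
  have : NeZero M := ⟨hM.ne'⟩
  rw [← hx]
  calc ∑ i, (x i).val ^ k ≤ ∑ _i : Fin d, M ^ k := by
        apply Finset.sum_le_sum
        intro i _
        exact Nat.pow_le_pow_left (ZMod.val_lt _).le _
    _ = d * M ^ k := by simp

/-- bound for `cnt` from the upper bound in the asymptotic, `d = k + e` -/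
lemma cnt_bound (k e : ℕ) (hk : 1 ≤ k) (h : AsympHolds k (k + e)) :
    ∃ C' : ℝ, 0 ≤ C' ∧ ∀ M : ℕ, 0 < M → ∀ n : ℕ, (cnt k (k + e) M n : ℝ) ≤ C' * (M : ℝ) ^ e := by
  obtain ⟨c, C, r₀, hc, hcC, H⟩ := h
  have hC : 0 ≤ C := hc.le.trans hcC
  set L : ℕ := ⌈max r₀ 0⌉₊ + 1 with hL
  refine ⟨C * ((k + e : ℕ) : ℝ) ^ e + (L : ℝ) ^ (k + e), by positivity, ?_⟩
  intro M hM n
  have hM1 : (1 : ℝ) ≤ M := by exact_mod_cast hM
  have hMe : (1 : ℝ) ≤ (M : ℝ) ^ e := one_le_pow₀ hM1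
  -- the radius
  set r : ℝ := (n : ℝ) ^ ((1 : ℝ) / k) with hr
  have hr0 : 0 ≤ r := by positivity
  have hrk : r ^ k = n := by
    rw [hr, ← Real.rpow_natCast, ← Real.rpow_mul (by positivity)]
    have : (1 : ℝ) / k * k = 1 := by
      have : (k : ℝ) ≠ 0 := by positivity
      field_simp
    rw [this, Real.rpow_one]
  by_cases hcase : r < L
  · have h1 := cnt_small k (k + e) M n hM hk r hr0 hrk L hcase
    have h2 : (cnt k (k + e) M n : ℝ) ≤ (L : ℝ) ^ (k + e) := by exact_mod_cast h1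
    have h3 : 0 ≤ C * ((k + e : ℕ) : ℝ) ^ e := by positivity
    have h4 : (0 : ℝ) ≤ (L : ℝ) ^ (k + e) := by positivity
    nlinarith
  · push Not at hcase
    have hLr0 : r₀ ≤ r := by
      have h1 : max r₀ 0 ≤ (⌈max r₀ 0⌉₊ : ℝ) := Nat.le_ceil _
      have h2 : ((L : ℕ) : ℝ) = (⌈max r₀ 0⌉₊ : ℝ) + 1 := by rw [hL]; push_cast; ring
      have h3 : r₀ ≤ max r₀ 0 := le_max_left _ _
      linarith
    have hrpos : 0 < r := by
      have : (0 : ℝ) < L := by rw [hL]; positivity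
      linarith
    by_cases hne : ∃ x : Fin (k + e) → ZMod M, ∑ i, (x i).val ^ k = n
    · obtain ⟨x, hx⟩ := hne
      have hnle := sum_le k (k + e) M n hM x hx
      have hrad : IsRadius k (k + e) r := by
        refine ⟨hrpos, ⟨n, hrk⟩, ⟨fun i => ((x i).val : ℤ), ?_⟩⟩
        show ∑ i, |(((x i).val : ℤ) : ℝ)| ^ k = r ^ k
        rw [hrk, ← hx]
        push_cast
        apply Finset.sum_congr rfl
        intro i _
        rw [abs_of_nonneg (by positivity)]
      have h1 := (H r hrad hLr0).2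
      have h2 := cnt_le_sphere k (k + e) M n hM hk r hr0 hrk
      have h2' : (cnt k (k + e) M n : ℝ) ≤ ((sphere k (k + e) r).ncard : ℝ) := by
        exact_mod_cast h2
      have hexp : r ^ (((k + e : ℕ) : ℤ) - (k : ℤ)) = r ^ e := by
        have : ((k + e : ℕ) : ℤ) - (k : ℤ) = (e : ℤ) := by push_cast; ring
        rw [this, zpow_natCast]
      rw [hexp] at h1
      have hke : 1 ≤ k + e := by omega
      have hrle : r ≤ ((k + e : ℕ) : ℝ) * M := by
        apply le_of_pow_le_pow_left₀ (n := k) (by omega) (by positivity)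
        rw [hrk, mul_pow]
        have h5 : (n : ℝ) ≤ ((k + e : ℕ) : ℝ) * (M : ℝ) ^ k := by exact_mod_cast hnle
        have h6 : ((k + e : ℕ) : ℝ) ≤ ((k + e : ℕ) : ℝ) ^ k := by
          have h7 : k + e ≤ (k + e) ^ k := Nat.le_self_pow (by omega) _
          exact_mod_cast h7
        have h8 : (0 : ℝ) ≤ (M : ℝ) ^ k := by positivity
        nlinarith
      have h9 : r ^ e ≤ (((k + e : ℕ) : ℝ) * M) ^ e := pow_le_pow_left₀ hr0 hrle e
      rw [mul_pow] at h9
      calc (cnt k (k + e) M n : ℝ) ≤ C * r ^ e := h2'.trans h1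
        _ ≤ C * (((k + e : ℕ) : ℝ) ^ e * (M : ℝ) ^ e) := mul_le_mul_of_nonneg_left h9 hC
        _ ≤ (C * ((k + e : ℕ) : ℝ) ^ e + (L : ℝ) ^ (k + e)) * (M : ℝ) ^ e := by
            have : (0 : ℝ) ≤ (L : ℝ) ^ (k + e) * (M : ℝ) ^ e := by positivity
            nlinarith
    · have h0 : cnt k (k + e) M n = 0 := by
        unfold cnt
        rw [Nat.card_eq_zero]
        left
        exact ⟨fun x => hne ⟨x.1, x.2⟩⟩
      rw [h0]
      simp only [Nat.cast_zero]
      positivity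

/-- passing from dimension `k` to dimension `k + 1` -/
lemma cnt_step (k : ℕ) (C' : ℝ) (hC' : 0 ≤ C')
    (h : ∀ M : ℕ, 0 < M → ∀ n : ℕ, (cnt k k M n : ℝ) ≤ C') :
    ∀ M : ℕ, 0 < M → ∀ n : ℕ, (cnt k (k + 1) M n : ℝ) ≤ C' * (M : ℝ) := by
  classical
  intro M hM n
  have : NeZero M := ⟨hM.ne'⟩
  have hinj : cnt k (k + 1) M n ≤
      Nat.card (Σ a : ZMod M, {x : Fin k → ZMod M // ∑ i, (x i).val ^ k = n - a.val ^ k}) := by
    unfold cnt
    refine Nat.card_le_card_of_injective (fun x => ⟨x.1 0, ⟨fun i => x.1 i.succ, ?_⟩⟩) ?_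
    · have h7 := x.2
      rw [Fin.sum_univ_succ] at h7
      show ∑ i : Fin k, (x.1 i.succ).val ^ k = n - (x.1 0).val ^ k
      omega
    · intro x y hxy
      simp only [Sigma.mk.injEq] at hxy
      obtain ⟨h1, h2⟩ := hxy
      apply Subtype.ext
      funext i
      refine Fin.cases h1 (fun j => ?_) i
      have hgen : ∀ (a b : ZMod M) (hab : a = b)
          (u : {x : Fin k → ZMod M // ∑ i, (x i).val ^ k = n - a.val ^ k})
          (v : {x : Fin k → ZMod M // ∑ i, (x i).val ^ k = n - b.val ^ k}),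
          HEq u v → u.1 = v.1 := by
        intro a b hab u v huv
        subst hab
        rw [eq_of_heq huv]
      exact congrFun (hgen _ _ h1 _ _ h2) j
  have hsum : Nat.card (Σ a : ZMod M, {x : Fin k → ZMod M // ∑ i, (x i).val ^ k = n - a.val ^ k})
      = ∑ a : ZMod M, cnt k k M (n - a.val ^ k) := by
    rw [Nat.card_sigma]
    rfl
  calc (cnt k (k + 1) M n : ℝ) ≤ ((∑ a : ZMod M, cnt k k M (n - a.val ^ k) : ℕ) : ℝ) := by
        rw [← hsum]; exact_mod_cast hinj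
    _ = ∑ a : ZMod M, (cnt k k M (n - a.val ^ k) : ℝ) := by push_cast; rfl
    _ ≤ ∑ _a : ZMod M, C' := Finset.sum_le_sum (fun a _ => h M hM _)
    _ = C' * M := by simp [ZMod.card]; ring

/-- the number of zeros modulo `M` is `O(M^k)` -/
lemma zc_bound (k : ℕ) (hk : 1 ≤ k) (C' : ℝ) (hC' : 0 ≤ C')
    (h : ∀ M : ℕ, 0 < M → ∀ n : ℕ, (cnt k (k + 1) M n : ℝ) ≤ C' * (M : ℝ)) :
    ∀ M : ℕ, 0 < M → (zc k (k + 1) M : ℝ) ≤ ((k : ℝ) + 2) * C' * (M : ℝ) ^ k := by
  classical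
  intro M hM
  have : NeZero M := ⟨hM.ne'⟩
  set J : ℕ := (k + 1) * M ^ (k - 1) + 1 with hJ
  have hMk : M ^ k = M * M ^ (k - 1) := by
    rw [← pow_succ']
    congr 1
    omega
  have hinj : zc k (k + 1) M ≤
      Nat.card (Σ j : Fin J, {x : Fin (k + 1) → ZMod M // ∑ i, (x i).val ^ k = M * j.val}) := by
    unfold zc
    have hdiv : ∀ x : {x : Fin (k + 1) → ZMod M // ∑ i, x i ^ k = 0},
        M ∣ ∑ i, (x.1 i).val ^ k := by
      intro x
      rw [← CharP.cast_eq_zero_iff (ZMod M) M]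
      push_cast
      simpa using x.2
    have hlt : ∀ x : {x : Fin (k + 1) → ZMod M // ∑ i, x i ^ k = 0},
        (∑ i, (x.1 i).val ^ k) / M < J := by
      intro x
      have h1 := sum_le k (k + 1) M _ hM x.1 rfl
      rw [hMk] at h1
      have h2 : (∑ i, (x.1 i).val ^ k) / M ≤ (k + 1) * M ^ (k - 1) := by
        apply Nat.div_le_of_le_mul
        calc _ ≤ (k + 1) * (M * M ^ (k - 1)) := h1
          _ = M * ((k + 1) * M ^ (k - 1)) := by ring
      omega
    refine Nat.card_le_card_of_injective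
      (fun x => ⟨⟨(∑ i, (x.1 i).val ^ k) / M, hlt x⟩, ⟨x.1, ?_⟩⟩) ?_
    · exact (Nat.mul_div_cancel' (hdiv x)).symm
    · intro x y hxy
      simp only [Sigma.mk.injEq] at hxy
      obtain ⟨h1, h2⟩ := hxy
      apply Subtype.ext
      have hgen : ∀ (a b : Fin J) (hab : a = b)
          (u : {x : Fin (k + 1) → ZMod M // ∑ i, (x i).val ^ k = M * a.val})
          (v : {x : Fin (k + 1) → ZMod M // ∑ i, (x i).val ^ k = M * b.val}),
          HEq u v → u.1 = v.1 := by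
        intro a b hab u v huv
        subst hab
        rw [eq_of_heq huv]
      exact hgen _ _ h1 _ _ h2
  have hsum : Nat.card (Σ j : Fin J,
      {x : Fin (k + 1) → ZMod M // ∑ i, (x i).val ^ k = M * j.val})
      = ∑ j : Fin J, cnt k (k + 1) M (M * j.val) := by
    rw [Nat.card_sigma]
    rfl
  have hM1 : (1 : ℝ) ≤ M := by exact_mod_cast hM
  calc (zc k (k + 1) M : ℝ) ≤ ((∑ j : Fin J, cnt k (k + 1) M (M * j.val) : ℕ) : ℝ) := by
        rw [← hsum]; exact_mod_cast hinj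
    _ = ∑ j : Fin J, (cnt k (k + 1) M (M * j.val) : ℝ) := by push_cast; rfl
    _ ≤ ∑ _j : Fin J, C' * M := Finset.sum_le_sum (fun a _ => h M hM _)
    _ = (J : ℝ) * (C' * M) := by simp
    _ ≤ ((k : ℝ) + 2) * C' * (M : ℝ) ^ k := by
        have h1 : (J : ℝ) = ((k : ℝ) + 1) * (M : ℝ) ^ (k - 1) + 1 := by rw [hJ]; push_cast; ring
        have h2 : (M : ℝ) ^ k = M * (M : ℝ) ^ (k - 1) := by exact_mod_cast hMk
        have h3 : (1 : ℝ) ≤ (M : ℝ) ^ (k - 1) := one_le_pow₀ hM1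
        rw [h1, h2]
        have h4 : 0 ≤ C' * M := by positivity
        nlinarith

/-- In small dimension the asymptotic fails. -/
theorem not_holds_lt (k d : ℕ) (hd : 1 ≤ d) (hdk : d < k) : ¬ AsympHolds k d := by
  rintro ⟨c, C, r₀, hc, hcC, H⟩
  have hC : 0 < C := hc.trans_le hcC
  obtain ⟨t, ht⟩ := exists_nat_gt (max (max r₀ 1) C)
  have ht1 : (1 : ℝ) < t := lt_of_le_of_lt ((le_max_right _ _).trans (le_max_left _ _)) ht
  have htr : r₀ < t := lt_of_le_of_lt ((le_max_left _ _).trans (le_max_left _ _)) ht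
  have htC : C < t := lt_of_le_of_lt (le_max_right _ _) ht
  have hpt : (fun i : Fin d => if i = ⟨0, hd⟩ then (t : ℤ) else 0) ∈ sphere k d (t : ℝ) := by
    show ∑ i : Fin d, |((if i = ⟨0, hd⟩ then (t : ℤ) else 0 : ℤ) : ℝ)| ^ k = (t : ℝ) ^ k
    rw [Finset.sum_eq_single (⟨0, hd⟩ : Fin d)]
    · simp
    · intro b _ hb
      simp [hb]
      omega
    · intro h; exact absurd (Finset.mem_univ _) h
  have hrad : IsRadius k d (t : ℝ) := ⟨by linarith, ⟨t ^ k, by push_cast; rfl⟩, ⟨_, hpt⟩⟩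
  have h1 := (H t hrad htr.le).2
  have hfin := sphere_finite k d (by omega) (t : ℝ) (by positivity)
  have h2 : 1 ≤ (sphere k d (t : ℝ)).ncard := by
    rw [Nat.one_le_iff_ne_zero]
    intro h0
    rw [Set.ncard_eq_zero hfin] at h0
    rw [h0] at hpt
    exact hpt
  have h2' : (1 : ℝ) ≤ ((sphere k d (t : ℝ)).ncard : ℝ) := by exact_mod_cast h2
  have h3 : (t : ℝ) ^ ((d : ℤ) - (k : ℤ)) ≤ (t : ℝ) ^ (-1 : ℤ) :=
    zpow_le_zpow_right₀ ht1.le (by omega)
  rw [zpow_neg_one] at h3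
  have h4 : C * (t : ℝ) ^ ((d : ℤ) - (k : ℤ)) ≤ C * (t : ℝ)⁻¹ :=
    mul_le_mul_of_nonneg_left h3 hC.le
  have h5 : C * (t : ℝ)⁻¹ < 1 := by
    rw [mul_inv_lt_iff₀ (by linarith)]
    linarith
  linarith

/-- The main reduction: a local bonus at all large primes rules out the asymptotic in all
dimensions up to `k + 1`. -/
theorem lower_of_local (k : ℕ) (hk : 1 ≤ k) (c : ℝ) (hc : 0 < c) (p0 : ℕ)
    (hloc : ∀ p : ℕ, p.Prime → p0 ≤ p →
      ((p : ℝ) ^ k) ^ k * (1 + c / p) ≤ zc k (k + 1) (p ^ k))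
    (d : ℕ) (hd : 1 ≤ d) (h : AsympHolds k d) : k + 2 ≤ d := by
  by_contra hcon
  push Not at hcon
  have hb : ∃ C' : ℝ, 0 ≤ C' ∧ ∀ M : ℕ, 0 < M → ∀ n : ℕ,
      (cnt k (k + 1) M n : ℝ) ≤ C' * (M : ℝ) := by
    rcases lt_trichotomy d k with h1 | h1 | h1
    · exact absurd h (not_holds_lt k d hd h1)
    · subst h1
      obtain ⟨C', hC', h2⟩ := cnt_bound d 0 hk (by simpa using h)
      refine ⟨C', hC', cnt_step d C' hC' ?_⟩
      intro M hM n
      simpa using h2 M hM n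
    · have : d = k + 1 := by omega
      subst this
      obtain ⟨C', hC', h2⟩ := cnt_bound k 1 hk h
      refine ⟨C', hC', ?_⟩
      intro M hM n
      simpa using h2 M hM n
  obtain ⟨C', hC', h2⟩ := hb
  have h3 := zc_bound k hk C' hC' h2
  obtain ⟨M, hM, h4⟩ := zc_unbounded k (k + 1) c hc p0 (by simpa using hloc)
    (((k : ℝ) + 2) * C')
  have h5 := h3 M hM
  simp only [Nat.add_sub_cancel] at h4
  linarith

end Pool.Agent.H421Sph
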