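import Mathlib
import Pool.Agent.H421Sph.Fib
import Pool.Agent.H421Sph.Fourier

/-!
Zeros of the diagonal form modulo `p ^ k`.
-/

namespace Pool.Agent.H421Sph

open Finset

lemma isUnit_of_red (p k : ℕ) (hp : p.Prime) (hk : k ≠ 0) (x : ZMod (p ^ k))
    (hx : red p k hk x ≠ 0) : IsUnit x := by
  have : NeZero p := ⟨hp.ne_zero⟩
  have : NeZero (p ^ k) := ⟨pow_ne_zero _ hp.ne_zero⟩
  have h1 : ¬ p ∣ x.val := by
    intro h
    apply hx
    have h2 : ((x.val : ℕ) : ZMod p) = 0 := (ZMod.natCast_eq_zero_iff _ _).2 h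
    rw [← h2]
    simp [red]
  have h3 : IsUnit ((x.val : ℕ) : ZMod (p ^ k)) := by
    rw [ZMod.isUnit_iff_coprime]
    exact (Nat.Coprime.pow_left k ((Nat.Prime.coprime_iff_not_dvd hp).2 h1)).symm
  simpa using h3

/-- existence of k-th roots in a residue disc -/
lemma root_exists (p k : ℕ) (hp : p.Prime) (hk : k ≠ 0) (hpk : ¬ p ∣ k) (b : ZMod p)
    (hb : b ≠ 0) (u : ZMod (p ^ k)) (hu : red p k hk u = b ^ k) :
    ∃ t : ZMod (p ^ k), red p k hk t = b ∧ t ^ k = u := by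
  have : NeZero p := ⟨hp.ne_zero⟩
  have : Fact p.Prime := ⟨hp⟩
  have : NeZero (p ^ k) := ⟨pow_ne_zero _ hp.ne_zero⟩
  let F : {x : ZMod (p ^ k) // red p k hk x = b} → {x : ZMod (p ^ k) // red p k hk x = b ^ k} :=
    fun x => ⟨x.1 ^ k, by rw [map_pow, x.2]⟩
  have hinj : Function.Injective F := by
    intro x y hxy
    have h1 : x.1 ^ k = y.1 ^ k := congrArg Subtype.val hxy
    have h2 : (∑ i ∈ range k, x.1 ^ i * y.1 ^ (k - 1 - i)) * (x.1 - y.1) = 0 := by
      rw [(Commute.all x.1 y.1).geom_sum₂_mul, h1, sub_self]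
    have h3 : IsUnit (∑ i ∈ range k, x.1 ^ i * y.1 ^ (k - 1 - i)) := by
      apply isUnit_of_red p k hp hk
      rw [map_sum]
      have h4 : ∀ i ∈ range k, red p k hk (x.1 ^ i * y.1 ^ (k - 1 - i)) = b ^ (k - 1) := by
        intro i hi
        rw [map_mul, map_pow, map_pow, x.2, y.2, ← pow_add]
        congr 1
        have := Finset.mem_range.1 hi
        omega
      rw [Finset.sum_congr rfl h4, Finset.sum_const, Finset.card_range, nsmul_eq_mul]
      apply mul_ne_zero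
      · rw [Ne, ZMod.natCast_eq_zero_iff]
        exact hpk
      · exact pow_ne_zero _ hb
    have h5 : x.1 - y.1 = 0 := by
      rwa [h3.mul_right_eq_zero] at h2
    exact Subtype.ext (sub_eq_zero.1 h5)
  have hbij := hinj.bijective_of_nat_card_le
    (by rw [fiber_card p k hp hk, fiber_card p k hp hk])
  obtain ⟨t, ht⟩ := hbij.2 ⟨u, hu⟩
  exact ⟨t.1, t.2, congrArg Subtype.val ht⟩

/-- the number of lifts of a nonzero zero -/
lemma lifts_card (p k d : ℕ) (hp : p.Prime) (hk : k ≠ 0) (hpk : ¬ p ∣ k)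
    (y : Fin d → ZMod p) (hy : ∑ i, y i ^ k = 0) (i0 : Fin d) (hi0 : y i0 ≠ 0) :
    p ^ ((k - 1) * (d - 1)) ≤
      Nat.card {x : Fin d → ZMod (p ^ k) //
        ∑ i, x i ^ k = 0 ∧ ∀ i, red p k hk (x i) = y i} := by
  classical
  have : NeZero p := ⟨hp.ne_zero⟩
  have : Fact p.Prime := ⟨hp⟩
  have : NeZero (p ^ k) := ⟨pow_ne_zero _ hp.ne_zero⟩
  have hcard : Nat.card (∀ i : {i : Fin d // i ≠ i0},
      {x : ZMod (p ^ k) // red p k hk x = y i.1}) = p ^ ((k - 1) * (d - 1)) := by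
    rw [Nat.card_pi]
    rw [Finset.prod_congr rfl (fun i _ => fiber_card p k hp hk (y i.1))]
    rw [Finset.prod_const, ← pow_mul]
    congr 2
    rw [Finset.card_univ, Fintype.card_subtype_compl, Fintype.card_fin]
    simp
  rw [← hcard]
  -- the root
  have hroot : ∀ s : (∀ i : {i : Fin d // i ≠ i0}, {x : ZMod (p ^ k) // red p k hk x = y i.1}),
      ∃ t : ZMod (p ^ k), red p k hk t = y i0 ∧
        t ^ k = -∑ i : {i : Fin d // i ≠ i0}, (s i).1 ^ k := by
    intro s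
    apply root_exists p k hp hk hpk _ hi0
    rw [map_neg, map_sum]
    have h1 : ∑ i : {i : Fin d // i ≠ i0}, red p k hk ((s i).1 ^ k)
        = ∑ i : {i : Fin d // i ≠ i0}, y i.1 ^ k := by
      apply Finset.sum_congr rfl
      intro i _
      rw [map_pow, (s i).2]
    rw [h1]
    have h2 : ∑ i, y i ^ k = y i0 ^ k + ∑ i : {i : Fin d // i ≠ i0}, y i.1 ^ k := by
      rw [← Finset.add_sum_erase univ (fun i => y i ^ k) (Finset.mem_univ i0)]
      congr 1
      rw [← Finset.sum_subtype (univ.erase i0) (p := fun i => i ≠ i0) (by intro x; simp)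
        (fun i => y i ^ k)]
    rw [hy] at h2
    linear_combination h2
  choose t ht1 ht2 using hroot
  refine Nat.card_le_card_of_injective
    (fun s => ⟨fun i => if h : i = i0 then t s else (s ⟨i, h⟩).1, ?_, ?_⟩) ?_
  · rw [← Finset.add_sum_erase univ
      (fun i => (if h : i = i0 then t s else (s ⟨i, h⟩).1) ^ k) (Finset.mem_univ i0)]
    rw [Finset.sum_subtype (univ.erase i0) (p := fun i => i ≠ i0) (by intro x; simp)
      (fun i => (if h : i = i0 then t s else (s ⟨i, h⟩).1) ^ k)]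
    have h3 : ∑ i : {i : Fin d // i ≠ i0},
        (if h : i.1 = i0 then t s else (s ⟨i.1, h⟩).1) ^ k
        = ∑ i : {i : Fin d // i ≠ i0}, (s i).1 ^ k := by
      apply Finset.sum_congr rfl
      intro i _
      rw [dif_neg i.2]
    rw [h3, dif_pos rfl, ht2 s]
    ring
  · intro i
    by_cases h : i = i0
    · subst h
      simp [ht1 s]
    · simp only [h, dite_false]
      exact (s ⟨i, h⟩).2
  · intro s s' hss
    funext i
    apply Subtype.ext
    have h1 := congrFun (congrArg Subtype.val hss) i.1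
    simp only [i.2, dite_false] at h1
    exact h1

/-- lower bound for the number of zeros modulo `p ^ k` -/
theorem zc_lower (p k d : ℕ) (hp : p.Prime) (hk : k ≠ 0) (hpk : ¬ p ∣ k) [Fact p.Prime] :
    ((univ.filter (fun y : Fin d → ZMod p => ∑ i, y i ^ k = 0)).card - 1) *
      p ^ ((k - 1) * (d - 1)) + p ^ ((k - 1) * d) ≤ zc k d (p ^ k) := by
  classical
  have : NeZero p := ⟨hp.ne_zero⟩
  have : NeZero (p ^ k) := ⟨pow_ne_zero _ hp.ne_zero⟩
  have hz : zc k d (p ^ k) =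
      (univ.filter (fun x : Fin d → ZMod (p ^ k) => ∑ i, x i ^ k = 0)).card := by
    unfold zc
    rw [Nat.card_eq_fintype_card, Fintype.card_subtype]
  rw [hz]
  set Z := univ.filter (fun y : Fin d → ZMod p => ∑ i, y i ^ k = 0) with hZ
  have hmaps : ∀ x ∈ univ.filter (fun x : Fin d → ZMod (p ^ k) => ∑ i, x i ^ k = 0),
      (fun i => red p k hk (x i)) ∈ Z := by
    intro x hx
    rw [hZ, Finset.mem_filter]
    refine ⟨Finset.mem_univ _, ?_⟩
    have h1 := (Finset.mem_filter.1 hx).2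
    have h2 := congrArg (red p k hk) h1
    simpa [map_sum, map_pow] using h2
  rw [Finset.card_eq_sum_card_fiberwise hmaps]
  have h0 : (0 : Fin d → ZMod p) ∈ Z := by
    rw [hZ, Finset.mem_filter]
    refine ⟨Finset.mem_univ _, ?_⟩
    simp [zero_pow hk]
  rw [← Finset.add_sum_erase Z _ h0]
  have hconv : ∀ y : Fin d → ZMod p,
      ((univ.filter (fun x : Fin d → ZMod (p ^ k) => ∑ i, x i ^ k = 0)).filter
        (fun x => (fun i => red p k hk (x i)) = y)).card =
      Nat.card {x : Fin d → ZMod (p ^ k) //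
        ∑ i, x i ^ k = 0 ∧ ∀ i, red p k hk (x i) = y i} := by
    intro y
    rw [Nat.card_eq_fintype_card, Fintype.card_subtype, Finset.filter_filter]
    congr 1
    ext x
    simp only [Finset.mem_filter, Finset.mem_univ, true_and]
    constructor
    · rintro ⟨h1, h2⟩
      exact ⟨h1, fun i => congrFun h2 i⟩
    · rintro ⟨h1, h2⟩
      exact ⟨h1, funext h2⟩
  have hzero : p ^ ((k - 1) * d) ≤
      ((univ.filter (fun x : Fin d → ZMod (p ^ k) => ∑ i, x i ^ k = 0)).filter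
        (fun x => (fun i => red p k hk (x i)) = 0)).card := by
    rw [hconv]
    have hcard : Nat.card (Fin d → {x : ZMod (p ^ k) // red p k hk x = 0})
        = p ^ ((k - 1) * d) := by
      rw [Nat.card_pi, Finset.prod_congr rfl (fun i _ => fiber_card p k hp hk 0)]
      rw [Finset.prod_const, ← pow_mul]
      simp
    rw [← hcard]
    refine Nat.card_le_card_of_injective (fun s => ⟨fun i => (s i).1, ?_, fun i => (s i).2⟩) ?_
    · apply Finset.sum_eq_zero
      intro i _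
      exact pow_eq_zero_of_red p k hp hk _ (s i).2
    · intro s s' hss
      funext i
      exact Subtype.ext (congrFun (congrArg Subtype.val hss) i)
  have hrest : (Z.card - 1) * p ^ ((k - 1) * (d - 1)) ≤
      ∑ y ∈ Z.erase 0, ((univ.filter (fun x : Fin d → ZMod (p ^ k) => ∑ i, x i ^ k = 0)).filter
        (fun x => (fun i => red p k hk (x i)) = y)).card := by
    rw [← Finset.card_erase_of_mem h0, ← smul_eq_mul, ← Finset.sum_const]
    apply Finset.sum_le_sum
    intro y hy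
    rw [hconv]
    have hy0 := Finset.ne_of_mem_erase hy
    have hyZ := Finset.mem_of_mem_erase hy
    obtain ⟨i0, hi0⟩ : ∃ i0, y i0 ≠ 0 := by
      by_contra hcon
      push Not at hcon
      exact hy0 (funext hcon)
    exact lifts_card p k d hp hk hpk y (Finset.mem_filter.1 hyZ).2 i0 hi0
  omega

/-- the local bonus for `k ≥ 4` -/
theorem local4 (k : ℕ) (hk : 4 ≤ k) (p : ℕ) (hp : p.Prime)
    (hpbig : 16 * (2 * k ^ 2) ^ (k + 1) ≤ p) :
    ((p : ℝ) ^ k) ^ k * (1 + (1 / 2) / p) ≤ zc k (k + 1) (p ^ k) := by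
  classical
  have : Fact p.Prime := ⟨hp⟩
  have hkp : k < p := by
    calc k < 16 * (2 * k ^ 2) ^ (k + 1) := by
          have h1 : 2 * k ^ 2 ≤ (2 * k ^ 2) ^ (k + 1) := Nat.le_self_pow (by omega) _
          nlinarith
      _ ≤ p := hpbig
  have hpk : ¬ p ∣ k := fun h => absurd (Nat.le_of_dvd (by omega) h) (by omega)
  have h1 := zc_lower p k (k + 1) hp (by omega) hpk
  have h2 := zeros_lower p k (k + 1) (by omega) (by omega)
  set Z : ℕ := (univ.filter (fun y : Fin (k + 1) → ZMod p => ∑ i, y i ^ k = 0)).card with hZ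
  set T : ℝ := Real.sqrt (2 * (k : ℝ) ^ 2 * p) with hT
  have hp1 : (1 : ℝ) ≤ p := by exact_mod_cast hp.one_lt.le
  have hppos : (0 : ℝ) < p := by linarith
  -- the bound for T
  have hTb : T ^ (k + 1) ≤ (p : ℝ) ^ (k - 1) / 4 := by
    apply le_of_pow_le_pow_left₀ (n := 2) two_ne_zero (by positivity)
    have hTs : T ^ 2 = 2 * (k : ℝ) ^ 2 * p := Real.sq_sqrt (by positivity)
    have e1 : (T ^ (k + 1)) ^ 2 = (2 * (k : ℝ) ^ 2) ^ (k + 1) * (p : ℝ) ^ (k + 1) := by
      rw [← pow_mul, mul_comm (k + 1) 2, pow_mul, hTs, mul_pow]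
    have e2 : ((p : ℝ) ^ (k - 1) / 4) ^ 2 = (p : ℝ) ^ (k + 1) * (p : ℝ) ^ (k - 3) / 16 := by
      rw [div_pow, ← pow_mul, ← pow_add]
      norm_num
      congr 1
      omega
    rw [e1, e2]
    have hb : (16 : ℝ) * (2 * (k : ℝ) ^ 2) ^ (k + 1) ≤ p := by exact_mod_cast hpbig
    have hb2 : (p : ℝ) ≤ (p : ℝ) ^ (k - 3) := by
      calc (p : ℝ) = (p : ℝ) ^ 1 := by ring
        _ ≤ (p : ℝ) ^ (k - 3) := pow_le_pow_right₀ hp1 (by omega)
    have hP : (0 : ℝ) ≤ (p : ℝ) ^ (k + 1) := by positivity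
    nlinarith
  have hZ1 : (p : ℝ) ^ k - (p : ℝ) ^ (k - 1) / 4 ≤ Z := by
    simp only [Nat.add_sub_cancel] at h2
    linarith
  have hZ0 : 1 ≤ Z := by
    rw [hZ, Nat.one_le_iff_ne_zero, Finset.card_ne_zero]
    exact ⟨0, by simp [zero_pow (show k ≠ 0 by omega)]⟩
  have h3 : ((Z : ℝ) - 1) * (p : ℝ) ^ ((k - 1) * k) + (p : ℝ) ^ ((k - 1) * (k + 1)) ≤
      (zc k (k + 1) (p ^ k) : ℝ) := by
    simp only [Nat.add_sub_cancel] at h1
    have h4 : (((Z - 1) * p ^ ((k - 1) * k) + p ^ ((k - 1) * (k + 1)) : ℕ) : ℝ) ≤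
        (zc k (k + 1) (p ^ k) : ℝ) := by exact_mod_cast h1
    push_cast [Nat.cast_sub hZ0] at h4
    exact h4
  refine le_trans ?_ h3
  -- algebra of powers
  obtain ⟨m, rfl⟩ : ∃ m, k = m + 1 := ⟨k - 1, by omega⟩
  simp only [Nat.add_sub_cancel] at *
  have e1 : ((p : ℝ) ^ (m + 1)) ^ (m + 1) = (p : ℝ) ^ (m * (m + 1)) * ((p : ℝ) ^ m * p) := by
    ring
  have e2 : (p : ℝ) ^ (m * (m + 1 + 1)) = (p : ℝ) ^ (m * (m + 1)) * (p : ℝ) ^ m := by
    ring
  have e3 : (p : ℝ) ^ (m + 1) = (p : ℝ) ^ m * p := by ring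
  rw [e1, e2]
  set P : ℝ := (p : ℝ) ^ (m * (m + 1)) with hP
  set q : ℝ := (p : ℝ) ^ m with hq
  have hP0 : 0 ≤ P := by positivity
  have hq4 : 4 ≤ q := by
    have h5 : (4 : ℝ) ≤ p := by
      have : 4 ≤ p := by omega
      exact_mod_cast this
    calc (4 : ℝ) ≤ p := h5
      _ = (p : ℝ) ^ 1 := by ring
      _ ≤ (p : ℝ) ^ m := pow_le_pow_right₀ hp1 (by omega)
  have e4 : P * (q * p) * (1 + 1 / 2 / (p : ℝ)) = P * (q * p + q / 2) := by
    field_simp
  rw [e4]
  have e5 : ((Z : ℝ) - 1) * P + P * q = P * (Z - 1 + q) := by ring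
  rw [e5]
  apply mul_le_mul_of_nonneg_left _ hP0
  rw [e3] at hZ1
  linarith

end Pool.Agent.H421Sph
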