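import Mathlib

/-!
Local lower bounds for the number of variables: if `x ^ k` is `0` or `1` modulo a power of `p` for
every `x`, then a primitive zero of `x_1 ^ k + ... + x_d ^ k` needs many variables.
-/

namespace Pool.Agent.H421Sph

lemma size_of_local (p k d q : ℕ) (h1 : ∀ x : ℕ, ¬ p ∣ x → x ^ k ≡ 1 [MOD q])
    (h0 : ∀ x : ℕ, p ∣ x → x ^ k ≡ 0 [MOD q]) (x : Fin d → ℕ) (hx : ∃ i, ¬ p ∣ x i)
    (hsum : q ∣ ∑ i, x i ^ k) : q ≤ d := by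
  classical
  have hmod : ∑ i, x i ^ k ≡ (Finset.univ.filter fun i => ¬ p ∣ x i).card [MOD q] := by
    rw [Finset.card_filter]
    refine Nat.ModEq.sum fun i _ => ?_
    by_cases hi : p ∣ x i
    · rw [if_neg (not_not.2 hi)]; exact h0 _ hi
    · rw [if_pos hi]; exact h1 _ hi
  have hdvd : q ∣ (Finset.univ.filter fun i => ¬ p ∣ x i).card :=
    (hmod.dvd_iff dvd_rfl).1 hsum
  obtain ⟨i, hi⟩ := hx
  have hpos : 0 < (Finset.univ.filter fun i => ¬ p ∣ x i).card :=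
    Finset.card_pos.2 ⟨i, Finset.mem_filter.2 ⟨Finset.mem_univ _, hi⟩⟩
  refine (Nat.le_of_dvd hpos hdvd).trans ?_
  refine (Finset.card_le_univ _).trans ?_
  simp

lemma size_prime (p k d s : ℕ) (hp : p.Prime) (hk : k ≠ 0) (hs : p ^ s ∣ k) (hpk : p - 1 ∣ k)
    (x : Fin d → ℕ) (hx : ∃ i, ¬ p ∣ x i) (hsum : p ^ k ∣ ∑ i, x i ^ k) : p ^ (s + 1) ≤ d := by
  have hle : s + 1 ≤ k := by
    have h1 : p ^ s ≤ k := Nat.le_of_dvd (Nat.pos_of_ne_zero hk) hs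
    have h2 : s < p ^ s := Nat.lt_pow_self hp.one_lt
    omega
  refine size_of_local p k d (p ^ (s + 1)) ?_ ?_ x hx ((pow_dvd_pow p hle).trans hsum)
  · intro y hy
    have hcop : Nat.Coprime y (p ^ (s + 1)) :=
      Nat.Coprime.pow_right _ ((Nat.Prime.coprime_iff_not_dvd hp).2 hy).symm
    have h3 : Nat.totient (p ^ (s + 1)) ∣ k := by
      rw [Nat.totient_prime_pow_succ hp]
      refine Nat.Coprime.mul_dvd_of_dvd_of_dvd ?_ hs hpk
      refine Nat.Coprime.pow_left _ ?_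
      rw [Nat.Prime.coprime_iff_not_dvd hp]
      intro h4
      have h5 := hp.one_lt
      have h6 := Nat.le_of_dvd (by omega) h4
      omega
    obtain ⟨c, rfl⟩ := h3
    rw [pow_mul]
    have h7 := (Nat.ModEq.pow_totient hcop).pow c
    rwa [one_pow] at h7
  · intro y hy
    rw [Nat.modEq_zero_iff_dvd]
    exact (pow_dvd_pow p hle).trans (pow_dvd_pow_of_dvd hy k)

lemma odd_pow (s : ℕ) (x : ℕ) (hx : ¬ 2 ∣ x) : x ^ 2 ^ (s + 1) ≡ 1 [MOD 2 ^ (s + 3)] := by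
  induction s with
  | zero =>
    have h1 : x % 8 = 1 ∨ x % 8 = 3 ∨ x % 8 = 5 ∨ x % 8 = 7 := by omega
    show x ^ 2 % 8 = 1 % 8
    rw [Nat.pow_mod]
    rcases h1 with h | h | h | h <;> rw [h]
  | succ s ih =>
    have h1 : (1 : ℕ) ≤ x ^ 2 ^ (s + 1) := Nat.one_le_pow _ _ (by
      rcases Nat.eq_zero_or_pos x with h | h
      · rw [h] at hx; exact absurd (dvd_zero 2) hx
      · exact h)
    obtain ⟨t, ht⟩ := (Nat.modEq_iff_dvd' h1).1 ih.symm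
    have h2 : x ^ 2 ^ (s + 1) = 1 + 2 ^ (s + 3) * t := by omega
    have h3 : x ^ 2 ^ (s + 1 + 1) = 1 + 2 ^ (s + 1 + 3) * (t + 2 ^ (s + 2) * t ^ 2) := by
      rw [pow_succ 2 (s + 1), pow_mul, h2]
      ring
    rw [h3]
    have h4 : 1 + 2 ^ (s + 1 + 3) * (t + 2 ^ (s + 2) * t ^ 2) ≡ 1 + 0 [MOD 2 ^ (s + 1 + 3)] :=
      Nat.ModEq.add_left 1 ((Nat.modEq_zero_iff_dvd).2 (Dvd.intro _ rfl))
    simpa using h4

lemma size_two (k d s : ℕ) (hk : 3 ≤ k) (hs0 : 1 ≤ s) (hs : 2 ^ s ∣ k)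
    (x : Fin d → ℕ) (hx : ∃ i, ¬ 2 ∣ x i) (hsum : 2 ^ k ∣ ∑ i, x i ^ k) : 2 ^ (s + 2) ≤ d := by
  have hle : s + 2 ≤ k := by
    have h1 : 2 ^ s ≤ k := Nat.le_of_dvd (by omega) hs
    rcases Nat.lt_or_ge s 3 with h3 | h3
    · interval_cases s
      · obtain ⟨c, rfl⟩ := hs
        omega
      · omega
    · obtain ⟨j, rfl⟩ : ∃ j, s = j + 3 := ⟨s - 3, by omega⟩
      have h2 : j < 2 ^ j := Nat.lt_two_pow_self
      have h4 : 2 ^ (j + 3) = 8 * 2 ^ j := by rw [pow_add]; ring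
      omega
  refine size_of_local 2 k d (2 ^ (s + 2)) ?_ ?_ x hx ((pow_dvd_pow 2 hle).trans hsum)
  · intro y hy
    obtain ⟨j, rfl⟩ : ∃ j, s = j + 1 := ⟨s - 1, by omega⟩
    obtain ⟨c, rfl⟩ := hs
    rw [pow_mul]
    have h7 := (odd_pow j y hy).pow c
    rwa [one_pow] at h7
  · intro y hy
    rw [Nat.modEq_zero_iff_dvd]
    exact (pow_dvd_pow 2 hle).trans (pow_dvd_pow_of_dvd hy k)

end Pool.Agent.H421Sph
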